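import Pool.Agent.ED2.LDc

/-!
The common frame of the Lean proof of note 2502 (blueprint: note 2539 of helper32), and its
lemmas L0 - L8.  `K = V_x`, `W k u` says `u ∈ V_k + K`, and `A u l` says `l ∈ K` and `u ∈ W_l`.
-/

set_option autoImplicit false
set_option linter.unusedSimpArgs false
set_option linter.unnecessarySeqFocus false
set_option linter.unusedSectionVars false

namespace Pool.Agent.ED2

open Pool.Agent.Helper58.PLine (QData)
open Pool.Agent.ETCP

variable {V Q : Type} [AddCommGroup V] [Module (ZMod 2) V]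

/-- `u ∈ V_k + V_x` -/
def W (S : QData V Q) (x k u : V) : Prop := ∃ w, C S x (u + w) ∧ C S k w

/-- `A(u)` -/
def A (S : QData V Q) (x u l : V) : Prop := C S x l ∧ ∃ w, C S x (u + w) ∧ C S l w

/-- the number of elements commuting with `v` -/
noncomputable def cd (S : QData V Q) (v : V) : ℕ := Nat.card {t // C S v t}

/-- `p` is the component of `l` in `A(u)` -/
def Pr (S : QData V Q) (x u l p : V) : Prop := A S x u p ∧ ∀ a, A S x u a → C S a (l + p)

/-- `C(u,v) = A(u) ∩ C_K(A(v))` -/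
def Cc (S : QData V Q) (x u v l : V) : Prop := A S x u l ∧ ∀ a, A S x v a → C S l a

/-- the frame: `x` has the largest centralizer, and (D2+) -/
structure Fr (S : QData V Q) (x : V) : Prop where
  he : S.e = 0
  xne : x ≠ 0
  mr : ∀ v, v ≠ 0 → cd S v ≤ cd S x
  d2 : ∀ k z, C S x k → z ≠ 0 → C S x z → (∀ t, C S x t → C S z t) →
    (∀ v, C S k v → C S x v) ∨ ∀ v, C S (k + z) v → C S x v

section basic

variable {S : QData V Q} {x u v l l' : V}

theorem A.hx (h : A S x u l) : C S x l := h.1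

theorem A.zero (S : QData V Q) (x u : V) : A S x u 0 := by
  refine ⟨C.zero x, u, ?_, C.zero' u⟩
  rw [ZModModule.add_self]
  exact C.zero x

theorem A_of_mem (hu : C S x u) (hl : C S x l) : A S x u l :=
  ⟨hl, 0, by rw [add_zero]; exact hu, C.zero l⟩

/-- `A(u)` depends on `u + K` only -/
theorem A.congr {u' : V} (hu : C S x (u + u')) (h : A S x u l) : A S x u' l := by
  obtain ⟨h1, w, h2, h3⟩ := h
  exact ⟨h1, w, (hu.add h2).of_eq rfl (eo (by abel_nf <;> simp only [ch2, ch3, ch4, add_zero, zero_add])), h3⟩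

/-- (N) -/
theorem A.inter (h : A S x u l) (h' : A S x v l) : A S x (u + v) l := by
  obtain ⟨h1, w, h2, h3⟩ := h
  obtain ⟨-, w', h2', h3'⟩ := h'
  exact ⟨h1, w + w', (h2.add h2').of_eq rfl (by abel), h3.add h3'⟩

theorem A_iff_Ac : A S x u l ↔ Ac S x (S.q x u) l := by
  unfold A Ac
  refine and_congr_right fun _ => exists_congr fun w => and_congr_left fun _ => ?_
  rw [← q_eq_iff]
  exact eq_comm

theorem A_iff_W (hl : C S x l) : A S x u l ↔ W S x l u := ⟨fun h => h.2, fun h => ⟨hl, h⟩⟩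

theorem W_of_mem (k : V) (hu : C S x u) : W S x k u := ⟨0, by rw [add_zero]; exact hu, C.zero k⟩

end basic

namespace Fr

variable {S : QData V Q} {x : V} (X : Fr S x)

include X

theorem xx : C S x x := C.self X.he x

theorem no_bigger [Finite V] {v : V} (hv : v ≠ 0) (h : ∀ t, C S x t → C S v t) {t : V}
    (ht : C S v t) : C S x t := by
  have h1 : cd S v ≤ cd S x := X.mr v hv
  have h2 : ({t | C S x t} : Set V) = {t | C S v t} :=
    Set.eq_of_subset_of_ncard_le (fun t ht => h t ht) h1 (Set.toFinite _)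
  have h3 : t ∈ ({t | C S v t} : Set V) := ht
  rw [← h2] at h3
  exact h3

theorem ld {u : V} (hu : ¬ C S x u) : LD S x (S.q x u) where
  he := X.he
  cne := hu
  hw := ⟨u, rfl⟩
  d2 := by
    intro l hl _
    obtain ⟨hxl, w, hw, hlw⟩ := hl
    rcases X.d2 l x hxl X.xne X.xx (fun t ht => ht) with h | h
    · exfalso
      apply hu
      have := h w hlw
      unfold C at this ⊢
      rw [← hw, this]
    · intro v hv
      exact h v (hv.of_eq (add_comm _ _) rfl)

/-- (LDc) (1) -/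
theorem Aadd {u l l' : V} (h : A S x u l) (h' : A S x u l') : A S x u (l + l') := by
  by_cases hu : C S x u
  · exact A_of_mem hu (h.1.add h'.1)
  · rw [A_iff_Ac] at *
    exact (X.ld hu).Aadd h h'

/-- (D2+) -/
theorem sep {u v l z : V} (hu : ¬ C S x u) (hv : ¬ C S x v) (hz : z ≠ 0) (hxz : C S x z)
    (hZ : ∀ t, C S x t → C S z t) (h : A S x u l) (h' : A S x v (l + z)) : False := by
  obtain ⟨h1, w, h2, h3⟩ := h
  obtain ⟨-, w', h2', h3'⟩ := h'
  rcases X.d2 l z h1 hz hxz hZ with h | h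
  · exact hu ((h2.add (h w h3)).of_eq rfl (eo (by abel_nf <;> simp only [ch2, ch3, ch4, add_zero, zero_add])))
  · exact hv ((h2'.add (h w' h3')).of_eq rfl (eo (by abel_nf <;> simp only [ch2, ch3, ch4, add_zero, zero_add])))

/-- the centralizer of `x + l` is inside `V_x` for `l ∈ A(u)` -/
theorem sub_x {u l : V} (hu : ¬ C S x u) (h : A S x u l) {v : V} (hv : C S (x + l) v) :
    C S x v := by
  obtain ⟨h1, w, h2, h3⟩ := h
  rcases X.d2 l x h1 X.xne X.xx (fun t ht => ht) with h | h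
  · exact absurd ((h2.add (h w h3)).of_eq rfl (eo (by abel_nf <;> simp only [ch2, ch3, ch4, add_zero, zero_add]))) hu
  · exact h v (hv.of_eq (add_comm _ _) rfl)

section fin

variable [Finite V]

/-- (LDc) (2) -/
theorem exists_w {u : V} (hu : ¬ C S x u) : ∃ w, C S x (u + w) ∧ ∀ a, A S x u a → C S a w := by
  obtain ⟨w, h1, h2⟩ := (X.ld hu).exists_wc
  exact ⟨w, q_eq_iff.1 h1.symm, fun a ha => h2 a (A_iff_Ac.1 ha)⟩

/-- (LDc) (3) -/
theorem exists_Pr {u k : V} (hu : ¬ C S x u) (hk : C S x k) : ∃ p, Pr S x u k p := by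
  obtain ⟨p, h1, h2⟩ := (X.ld hu).split hk
  exact ⟨p, A_iff_Ac.2 h1, fun a ha => h2 a (A_iff_Ac.1 ha)⟩

/-- (LDc) (4) -/
theorem lk {u m m' n n' : V} (hu : ¬ C S x u) (hm : C S x m) (hm' : C S x m') (hn : A S x u n)
    (hn' : A S x u n') (h : S.q m m' = S.q n n') :
    ∃ k, A S x u k ∧ C S m (m' + k) ∧ C S n (n' + k) := by
  obtain ⟨k, h1, h2⟩ := (X.ld hu).lkE hm hm' (A_iff_Ac.1 hn) (A_iff_Ac.1 hn') h
    (X.d2 m x hm X.xne X.xx (fun t ht => ht))
  exact ⟨k, A_iff_Ac.2 h1, h2⟩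

/-- L0 -/
theorem rad {u l : V} (hu : ¬ C S x u) (h : A S x u l) (hl : ∀ a, A S x u a → C S l a) :
    l = 0 := by
  by_contra hne
  obtain ⟨w, h1, h2⟩ := X.exists_w hu
  have h3 : ∀ t, C S x t → C S l t := by
    intro t ht
    obtain ⟨p, hp, hp'⟩ := X.exists_Pr hu ht
    exact ((hp' l h).add (hl p hp)).of_eq rfl (eo (by abel_nf <;> simp only [ch2, ch3, ch4, add_zero, zero_add]))
  have h4 := X.no_bigger hne h3 (h2 l h)
  exact hu ((h1.add h4).of_eq rfl (eo (by abel_nf <;> simp only [ch2, ch3, ch4, add_zero, zero_add])))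

theorem Pr_unique {u l p p' : V} (hu : ¬ C S x u) (h : Pr S x u l p) (h' : Pr S x u l p') :
    p = p' := by
  apply eo
  refine X.rad hu (X.Aadd h.1 h'.1) fun a ha => ?_
  exact ((h.2 a ha).add (h'.2 a ha)).symm.of_eq (eo (by abel_nf <;> simp only [ch2, ch3, ch4, add_zero, zero_add])) rfl

omit [Finite V] in
theorem Pr_self {u l : V} (h : A S x u l) : Pr S x u l l :=
  ⟨h, fun a _ => by rw [ZModModule.add_self]; exact C.zero a⟩

/-- L1 (PR) -/
theorem pr_comm {u k l p : V} (hu : ¬ C S x u) (hk : C S x k) (hl : C S x l) (hkl : C S k l)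
    (hp : Pr S x u l p) : C S k p := by
  obtain ⟨p', hp', hk'⟩ := X.exists_Pr hu hk
  have e1 : S.q k p = S.q p' p :=
    q_eq' ((hk' p hp.1).symm)
  have e2 : S.q k (l + p) = S.q (k + p') (l + p) := by
    apply q_eq'
    exact (hp.2 p' hp').of_eq (eo (by abel_nf <;> simp only [ch2, ch3, ch4, add_zero, zero_add])) rfl
  have e3 : S.q k p = S.q k (l + p) := by
    apply q_eq
    exact hkl.of_eq rfl (eo (by abel_nf <;> simp only [ch2, ch3, ch4, add_zero, zero_add]))
  have e4 : S.q (k + p') (l + p) = S.q p' p := by rw [← e2, ← e3, e1]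
  obtain ⟨k', h1, h2, h3⟩ := X.lk hu (hk.add hp'.1) (hl.add hp.1.1) hp' hp.1 e4
  have h4 : C S (k + p') (l + p) :=
    (h2.add (hk' k' h1).symm).of_eq rfl (eo (by abel_nf <;> simp only [ch2, ch3, ch4, add_zero, zero_add]))
  unfold C at h4 ⊢
  rw [e1, ← e4, h4]

/-- L2 -/
theorem dc {u k p : V} (hu : ¬ C S x u)
    (h : ∀ t, C S x t → (∀ a, A S x u a → C S t a) → C S k t) (hp : Pr S x u k p) {t : V}
    (ht : C S x t) : C S (k + p) t := by
  obtain ⟨p', hp', ht'⟩ := X.exists_Pr hu ht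
  have h1 : C S (k + p) p' := (hp.2 p' hp').symm
  have h2 : C S k (t + p') := h _ (ht.add hp'.1) fun a ha => (ht' a ha).symm
  have h3 : C S p (t + p') := ht' p hp.1
  exact (h1.add (h2.add' h3)).of_eq rfl (eo (by abel_nf <;> simp only [ch2, ch3, ch4, add_zero, zero_add]))

/-- L3 -/
theorem pr_mem {u v l p : V} (hu : ¬ C S x u) (hv : ¬ C S x v) (hl : A S x u l)
    (hp : Pr S x v l p) : A S x u p := by
  obtain ⟨a, ha⟩ := X.exists_Pr hu hp.1.1
  have h1 : ∀ t, C S x t → C S (p + a) t := by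
    intro t ht
    refine X.dc hu ?_ ha ht
    intro t ht h
    exact (X.pr_comm hv ht hl.1 (h l hl) hp).symm
  by_cases hz : p + a = 0
  · rw [eo hz]
    exact ha.1
  · exfalso
    refine X.sep hv hu hz (hp.1.1.add ha.1.1) h1 hp.1 (?_ : A S x u (p + (p + a)))
    rw [Pool.Agent.Helper58.PLine.add_add_self]
    exact ha.1

/-- L3, the other component -/
theorem pr_mem' {u v l p : V} (hu : ¬ C S x u) (hv : ¬ C S x v) (hl : A S x u l)
    (hp : Pr S x v l p) : A S x u (l + p) := X.Aadd hl (X.pr_mem hu hv hl hp)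

theorem Cadd {u v l l' : V} (h : Cc S x u v l) (h' : Cc S x u v l') : Cc S x u v (l + l') :=
  ⟨X.Aadd h.1 h'.1, fun a ha => (h.2 a ha).add' (h'.2 a ha)⟩

omit [Finite V] in
theorem Czero (u v : V) : Cc S x u v 0 := ⟨A.zero S x u, fun a _ => C.zero' a⟩

/-- the component in `C(u,v)` -/
theorem pr_Cc {u v l p : V} (hu : ¬ C S x u) (hv : ¬ C S x v) (hl : A S x u l)
    (hp : Pr S x v l p) : Cc S x u v (l + p) :=
  ⟨X.pr_mem' hu hv hl hp, fun a ha => (hp.2 a ha).symm⟩

/-- `C(u,v) = 0` iff `A(u) < A(v)` -/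
theorem sub_of_Cc {u v : V} (hu : ¬ C S x u) (hv : ¬ C S x v) (h : ∀ l, Cc S x u v l → l = 0)
    {l : V} (hl : A S x u l) : A S x v l := by
  obtain ⟨p, hp⟩ := X.exists_Pr hv hl.1
  have := h _ (X.pr_Cc hu hv hl hp)
  rw [eo this]
  exact hp.1

theorem Cc_of_sub {u v : V} (hv : ¬ C S x v) (h : ∀ l, A S x u l → A S x v l)
    {l : V} (hl : Cc S x u v l) : l = 0 := X.rad hv (h l hl.1) hl.2

end fin

end Fr

/-- good subgroups of `A(u)` -/
structure Good (S : QData V Q) (x u : V) (B : V → Prop) : Prop where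
  zero : B 0
  add : ∀ b b', B b → B b' → B (b + b')
  sub : ∀ b, B b → A S x u b
  pr : ∀ v b p, ¬ C S x v → B b → Pr S x v b p → B p
  rad : ∀ b, B b → (∀ b', B b' → C S b b') → b = 0

namespace Fr

variable {S : QData V Q} {x : V} (X : Fr S x)

include X

variable [Finite V]

/-- L4 for `A(u)` -/
theorem good_A {u : V} (hu : ¬ C S x u) : Good S x u (A S x u) where
  zero := A.zero S x u
  add := fun _ _ h h' => X.Aadd h h'
  sub := fun _ h => h
  pr := fun _ _ _ hv hb hp => X.pr_mem hu hv hb hp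
  rad := fun _ hb h => X.rad hu hb h

/-- L4 for `C(u,v)` -/
theorem good_C {u v : V} (hu : ¬ C S x u) (hv : ¬ C S x v) : Good S x u (Cc S x u v) where
  zero := X.Czero u v
  add := fun _ _ h h' => X.Cadd h h'
  sub := fun _ h => h.1
  pr := by
    intro v' b p hv' hb hp
    refine ⟨X.pr_mem hu hv' hb.1 hp, fun a ha => ?_⟩
    exact (X.pr_comm hv' ha.1 hb.1.1 (hb.2 a ha).symm hp).symm
  rad := by
    intro b hb h
    refine X.rad hu hb.1 fun a ha => ?_
    obtain ⟨p, hp⟩ := X.exists_Pr hv ha.1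
    have h1 := h _ (X.pr_Cc hu hv ha hp)
    exact (h1.add (hb.2 p hp.1)).of_eq rfl (eo (by abel_nf <;> simp only [ch2, ch3, ch4, add_zero, zero_add]))

/-- L5: generic elements -/
theorem generic {u : V} {B : V → Prop} (hB : Good S x u B) :
    ∃ m, B m ∧ ∀ v, ¬ C S x v → (∀ b, B b → (∀ a, A S x v a → C S b a) → C S m b) →
      ∀ b, B b → (∀ a, A S x v a → C S b a) → b = 0 := by
  classical
  obtain ⟨m, hm, hmin⟩ : ∃ m, B m ∧ ∀ m', B m' →
      Nat.card {v // W S x m v} ≤ Nat.card {v // W S x m' v} := by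
    have hne : ({n | ∃ m, B m ∧ Nat.card {v // W S x m v} = n} : Set ℕ).Nonempty :=
      ⟨_, 0, hB.zero, rfl⟩
    obtain ⟨m, hm, h⟩ := Nat.sInf_mem hne
    refine ⟨m, hm, fun m' hm' => ?_⟩
    rw [h]
    exact Nat.sInf_le ⟨m', hm', rfl⟩
  refine ⟨m, hm, fun v hv h m' hm' hm'' => ?_⟩
  by_contra hne
  obtain ⟨p, hp⟩ := X.exists_Pr hv (hB.sub m hm).1
  have hpB : B p := hB.pr v m p hv hm hp
  have h0 : m + p = 0 := by
    refine hB.rad _ (hB.add _ _ hm hpB) fun b hb => ?_
    obtain ⟨b', hb'⟩ := X.exists_Pr hv (hB.sub b hb).1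
    have hbB : B b' := hB.pr v b b' hv hb hb'
    have h1 : C S (m + p) b' := (hp.2 b' hb'.1).symm
    have h2 : C S m (b + b') := h _ (hB.add _ _ hb hbB) fun a ha => (hb'.2 a ha).symm
    have h3 : C S p (b + b') := hb'.2 p hp.1
    exact (h1.add (h2.add' h3)).of_eq rfl (eo (by abel_nf <;> simp only [ch2, ch3, ch4, add_zero, zero_add]))
  have hmp : m = p := eo h0
  have hmv : A S x v m := by rw [hmp]; exact hp.1
  have hx' : C S x m' := (hB.sub m' hm').1
  have hsub : ∀ v', W S x (m + m') v' → W S x m v' := by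
    intro v' hv'
    by_cases hc : C S x v'
    · exact W_of_mem m hc
    · have h1 : A S x v' (m + m') := ⟨hmv.1.add hx', hv'⟩
      have h2 : Pr S x v (m + m') m := by
        refine ⟨hmv, fun a ha => ?_⟩
        exact (hm'' a ha).symm.of_eq rfl (eo (by abel_nf <;> simp only [ch2, ch3, ch4, add_zero, zero_add]))
      exact (X.pr_mem hc hv h1 h2).2
  have hnot : ¬ W S x (m + m') v := by
    intro hw
    have h1 : A S x v (m + m') := ⟨hmv.1.add hx', hw⟩
    have h2 : A S x v m' := by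
      have := X.Aadd hmv h1
      rwa [Pool.Agent.Helper58.PLine.add_add_self] at this
    exact hne (X.rad hv h2 hm'')
  have hle := hmin _ (hB.add _ _ hm hm')
  have heq : ({v' | W S x (m + m') v'} : Set V) = {v' | W S x m v'} :=
    Set.eq_of_subset_of_ncard_le (fun t ht => hsub t ht) hle (Set.toFinite _)
  apply hnot
  have : v ∈ ({v' | W S x m v'} : Set V) := hmv.2
  rw [← heq] at this
  exact this

/-- L6 (8a) -/
theorem kill {u v w s' : V} (hu : ¬ C S x u) (hw : C S x (u + w)) (hs : C S x (v + s'))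
    (hws : C S w s') {l : V} (hl : Cc S x u v l) : C S w l := by
  obtain ⟨hlu, hlv⟩ := hl
  obtain ⟨hxl, t1, ht1, hlt1⟩ := hlu
  have hxw : S.q x w = S.q x u := (q_eq_iff.2 hw).symm
  have hxt1 : S.q x t1 = S.q x u := (q_eq_iff.2 ht1).symm
  have e1 : S.q (s' + x) w = S.q x w :=
    q_eq' (hws.symm.of_eq (eo (by abel_nf <;> simp only [ch2, ch3, ch4, add_zero, zero_add])) rfl)
  have e2 : S.q (x + l) t1 = S.q x t1 :=
    q_eq' (hlt1.of_eq (eo (by abel_nf <;> simp only [ch2, ch3, ch4, add_zero, zero_add])) rfl)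
  obtain ⟨t, h1, h2, h3⟩ := link (S := S) (show S.q (s' + x) w = S.q (x + l) t1 by
    rw [e1, e2, hxw, hxt1])
  have h4 : C S x (t1 + t) := X.sub_x hu ⟨hxl, t1, ht1, hlt1⟩ h2
  -- `q x t = c`, `q l t = 0`, `q s' t = 0`
  have h5 : C S x (w + t) :=
    ((hw.add ht1).add h4).of_eq rfl (eo (by abel_nf <;> simp only [ch2, ch3, ch4, add_zero, zero_add]))
  have h6 : C S l (t1 + t) := (h4.add' h2).of_eq (Pool.Agent.Helper58.PLine.add_add_self _ _) rfl
  have h7 : C S l t := (hlt1.add h6).of_eq rfl (Pool.Agent.Helper58.PLine.add_add_self _ _)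
  have h8 : C S s' (w + t) :=
    (h1.add' h5).of_eq (eo (by abel_nf <;> simp only [ch2, ch3, ch4, add_zero, zero_add])) rfl
  have h9 : A S x v (w + t) := ⟨h5, s', hs, h8.symm⟩
  have h10 := hlv _ h9
  exact ((h10.add h7).symm).of_eq (eo (by abel_nf <;> simp only [ch2, ch3, ch4, add_zero, zero_add])) rfl

/-- L7 (8e) -/
theorem e8 {u y h a a0 : V} (hu : ¬ C S x u) (hy : C S x (u + y))
    (hyA : ∀ b, A S x u b → C S b y) (ha : A S x u a) (ha0 : A S x u a0)
    (hq : S.q y h = S.q a a0) : C S y h := by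
  have e1 : S.q (x + a) a0 = S.q a a0 :=
    q_eq' (ha0.1.of_eq (eo (by abel_nf <;> simp only [ch2, ch3, ch4, add_zero, zero_add])) rfl)
  obtain ⟨k, h1, h2, h3⟩ := link (S := S) (show S.q (x + a) a0 = S.q y h by rw [e1, hq])
  have h4 : C S x (a0 + k) := X.sub_x hu ha h1
  have h5 : C S x k :=
    (ha0.1.add h4).of_eq rfl (Pool.Agent.Helper58.PLine.add_add_self _ _)
  have h6 : C S (y + a) k := (h3.add' h5).of_eq (eo (by abel_nf <;> simp only [ch2, ch3, ch4, add_zero, zero_add])) rfl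
  have h7 : A S x u k := ⟨h5, y + a, (hy.add ha.1).of_eq rfl (by abel), h6.symm⟩
  have h8 := (hyA k h7).symm
  exact (h2.add h8).of_eq rfl (eo (by abel_nf <;> simp only [ch2, ch3, ch4, add_zero, zero_add]))

/-- L8 -/
theorem l8 {u t : V} (hu : ¬ C S x u) (h : ∀ a, A S x u a → A S x t a) :
    ∃ a0, A S x u a0 ∧ ∀ a, A S x u a → C S a (t + a0) := by
  by_cases ht : C S x t
  · exact X.exists_Pr hu ht
  · obtain ⟨w, h1, h2⟩ := X.exists_w ht
    obtain ⟨p, hp, hp'⟩ := X.exists_Pr hu h1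
    refine ⟨p, hp, fun a ha => ?_⟩
    have h3 := (hp' a ha).add (h2 a (h a ha))
    exact h3.of_eq rfl (eo (by abel_nf <;> simp only [ch2, ch3, ch4, add_zero, zero_add]))

end Fr

end Pool.Agent.ED2
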