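import Pool.Agent.ETCP.Basic
import Pool.Agent.ETC.QSat2

/-!
THEOREM LDc of note 2502 (helper32): for an element `x` and a value `c` of `x` such that every
slot `x + l ≠ x` of `c` commuting with `x` has its centralizer inside that of `x`, the set `A` of
these `l` is a linked subspace, some `w` with `q x w = c` kills `A`, and `V_x = A + C(A)`.
-/

set_option autoImplicit false
set_option linter.unusedSimpArgs false
set_option linter.unnecessarySeqFocus false
set_option linter.unusedSectionVars false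

namespace Pool.Agent.ED2

open Pool.Agent.Helper58.PLine (QData)
open Pool.Agent.ETCP
open ETC (ind ind_true ind_false ind_and ind_congr ind_nonneg ind_le)

variable {V Q : Type} [AddCommGroup V] [Module (ZMod 2) V]

/-- the set `A_c` -/
def Ac (S : QData V Q) (x : V) (c : Q) (l : V) : Prop :=
  C S x l ∧ ∃ w, S.q x w = c ∧ C S l w

/-- hypotheses of Theorem LDc -/
structure LD (S : QData V Q) (x : V) (c : Q) : Prop where
  he : S.e = 0
  cne : c ≠ S.z
  hw : ∃ w, S.q x w = c
  d2 : ∀ l, Ac S x c l → l ≠ 0 → ∀ v, C S (x + l) v → C S x v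

namespace LD

variable {S : QData V Q} {x : V} {c : Q} (X : LD S x c)

include X

theorem A0 : Ac S x c 0 := by
  obtain ⟨w, hw⟩ := X.hw
  exact ⟨C.zero x, w, hw, C.zero' w⟩

theorem nb {l v : V} (hl : Ac S x c l) (hv : S.q (x + l) v = c) : S.q x v = c ∧ C S l v := by
  have key : S.q x v = c := by
    by_cases h0 : l = 0
    · rw [h0, add_zero] at hv
      exact hv
    · obtain ⟨hxl, w, hw, hlw⟩ := hl
      have h1 : S.q (x + l) w = c := by
        rw [← hw]
        exact q_eq' (hlw.of_eq (eo (by abel_nf <;> simp only [ch2, ch3, ch4, add_zero, zero_add])) rfl)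
      have h2 : C S (x + l) (v + w) := q_eq_iff.1 (by rw [hv, h1])
      have h3 := X.d2 l ⟨hxl, w, hw, hlw⟩ h0 _ h2
      rw [q_eq h3, hw]
  refine ⟨key, ?_⟩
  have h4 : C S ((x + l) + x) v := q_eq'_iff.1 (by rw [hv, key])
  exact h4.of_eq (eo (by abel_nf <;> simp only [ch2, ch3, ch4, add_zero, zero_add])) rfl

theorem slot {l w : V} (hw : S.q x w = c) (hlw : C S l w) : S.q (x + l) w = c := by
  rw [← hw]
  exact q_eq' (hlw.of_eq (eo (by abel_nf <;> simp only [ch2, ch3, ch4, add_zero, zero_add])) rfl)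

theorem pair {l l' : V} (hl : Ac S x c l) (hl' : Ac S x c l') :
    ∃ w, S.q x w = c ∧ C S l w ∧ C S l' w := by
  obtain ⟨w, hw, hlw⟩ := hl.2
  obtain ⟨w', hw', hlw'⟩ := hl'.2
  have e1 := X.slot hw hlw
  have e2 := X.slot hw' hlw'
  obtain ⟨t, h1, h2, -⟩ := link (S := S) (show S.q (x + l) w = S.q (x + l') w' by rw [e1, e2])
  have f1 : S.q (x + l) t = c := by rw [← q_eq h1, e1]
  have f2 : S.q (x + l') t = c := by rw [← q_eq h2, e2]
  obtain ⟨g1, g2⟩ := X.nb hl f1
  obtain ⟨g3, g4⟩ := X.nb hl' f2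
  exact ⟨t, g1, g2, g4⟩

theorem Aadd {l l' : V} (hl : Ac S x c l) (hl' : Ac S x c l') : Ac S x c (l + l') := by
  obtain ⟨w, h1, h2, h3⟩ := X.pair hl hl'
  exact ⟨hl.1.add hl'.1, w, h1, h2.add' h3⟩

theorem Aadd_iff {l l' : V} (hl : Ac S x c l) : Ac S x c (l + l') ↔ Ac S x c l' := by
  refine ⟨fun h => ?_, fun h => X.Aadd hl h⟩
  have := X.Aadd hl h
  rwa [Pool.Agent.Helper58.PLine.add_add_self] at this

theorem shift {w m : V} (hw : S.q x w = c) (hm : C S x m) : S.q x (w + m) = c := by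
  rw [← hw]
  exact q_eq (hm.of_eq rfl (eo (by abel_nf <;> simp only [ch2, ch3, ch4, add_zero, zero_add])))

/-- (b) of the note -/
theorem star {w l : V} (hw : S.q x w = c) (hl : Ac S x c l) :
    ∃ m, Ac S x c m ∧ C S w m ∧ C S l (w + m) := by
  obtain ⟨w', hw', hlw'⟩ := hl.2
  have e1 := X.slot hw' hlw'
  have e2 : S.q w x = c := by rw [S.symm, hw]
  obtain ⟨t, h1, h2, -⟩ := link (S := S) (show S.q (x + l) w' = S.q w x by rw [e1, e2])
  have f1 : S.q (x + l) t = c := by rw [← q_eq h1, e1]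
  obtain ⟨g1, g2⟩ := X.nb hl f1
  have f2 : S.q w t = c := by rw [← q_eq h2, e2]
  have hxm : C S x (w + t + x) :=
    (q_eq_iff.1 (show S.q x w = S.q x t by rw [hw, g1])).add (C.self X.he x)
  have hwm : C S w (w + t + x) := by
    have h3 : C S w (t + x) := q_eq_iff.1 (by rw [f2, e2])
    exact ((C.self X.he w).add h3).of_eq rfl (by abel)
  refine ⟨w + t + x, ⟨hxm, w, hw, hwm.symm⟩, hwm, ?_⟩
  exact (g2.add hl.1.symm).of_eq rfl (eo (by abel_nf <;> simp only [ch2, ch3, ch4, add_zero, zero_add]))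

section count

variable [Fintype V]

omit X in
theorem sum_shift (P P' : V → Prop) (a : V) (h : ∀ v, P (v + a) ↔ P' v) :
    ∑ v, ind (P v) = ∑ v, ind (P' v) := by
  rw [← Equiv.sum_comp (Equiv.addRight a)]
  exact Finset.sum_congr rfl fun v _ => ind_congr (h v)

/-- (c) of the note: the count -/
theorem count_eq {w : V} (hw : S.q x w = c) :
    ∑ m, ∑ l, ∑ a, ind (Ac S x c m ∧ Ac S x c l ∧ Ac S x c a ∧ C S (w + a) m ∧ C S (w + a) l) =
    ∑ m, ∑ l, ∑ a, ind (Ac S x c m ∧ Ac S x c l ∧ Ac S x c a ∧ C S a m ∧ C S a l) := by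
  -- both sides equal the number of `(m, l, a)` with `(w + a) m = 0`, `(w + a + m) l = 0`
  have e1 : ∑ m, ∑ l, ∑ a, ind (Ac S x c m ∧ Ac S x c l ∧ Ac S x c a ∧ C S (w + a) m ∧
      C S (w + a) l) =
      ∑ m, ∑ l, ∑ a, ind (Ac S x c m ∧ Ac S x c l ∧ Ac S x c a ∧ C S (w + a) m ∧
      C S (w + a + m) l) := by
    refine Finset.sum_congr rfl fun m _ => Finset.sum_congr rfl fun l _ => ?_
    by_cases hm : Ac S x c m
    · symm
      refine sum_shift _ _ m fun a => ?_
      have ea : w + (a + m) + m = w + a := eo (by abel_nf <;> simp only [ch2, ch3, ch4, add_zero, zero_add])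
      have h1 : Ac S x c (a + m) ↔ Ac S x c a := by
        rw [add_comm a m]
        exact X.Aadd_iff hm
      have h2 : C S (w + (a + m)) m ↔ C S (w + a) m := by
        constructor
        · intro h
          exact (h.add' (C.self X.he m)).of_eq ea rfl
        · intro h
          exact (h.add' (C.self X.he m)).of_eq (by abel) rfl
      rw [h1, h2, ea]
    · simp only [hm, false_and, ind_false not_false]
  have e2 : ∑ m, ∑ l, ∑ a, ind (Ac S x c m ∧ Ac S x c l ∧ Ac S x c a ∧ C S (w + a) m ∧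
      C S (w + a + m) l) =
      ∑ m, ∑ l, ∑ a, ind (Ac S x c m ∧ Ac S x c l ∧ Ac S x c a ∧ C S (w + a) m ∧ C S m l) := by
    rw [Finset.sum_comm]
    rw [Finset.sum_comm (f := fun m l => ∑ a, ind (Ac S x c m ∧ Ac S x c l ∧ Ac S x c a ∧
      C S (w + a) m ∧ C S m l))]
    refine Finset.sum_congr rfl fun l _ => ?_
    rw [Finset.sum_comm]
    rw [Finset.sum_comm (f := fun m a => ind (Ac S x c m ∧ Ac S x c l ∧ Ac S x c a ∧
      C S (w + a) m ∧ C S m l))]
    refine Finset.sum_congr rfl fun a _ => ?_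
    by_cases hl : Ac S x c l
    · by_cases ha : Ac S x c a
      · obtain ⟨m0, hm0, h1, h2⟩ := X.star (X.shift hw ha.1) hl
        refine sum_shift _ _ m0 fun m => ?_
        have g1 : Ac S x c (m + m0) ↔ Ac S x c m := by
          rw [add_comm m m0]
          exact X.Aadd_iff hm0
        have g2 : C S (w + a) (m + m0) ↔ C S (w + a) m := by
          constructor
          · intro h
            exact (h.add h1).of_eq rfl (Pool.Agent.Helper58.PLine.add_self_add _ _)
          · intro h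
            exact h.add h1
        have g3 : C S (w + a + (m + m0)) l ↔ C S m l := by
          constructor
          · intro h
            exact (h.add' h2.symm).of_eq (eo (by abel_nf <;> simp only [ch2, ch3, ch4, add_zero, zero_add])) rfl
          · intro h
            exact (h.add' h2.symm).of_eq (by abel) rfl
        rw [g1, g2, g3]
      · simp only [ha, false_and, and_false, ind_false not_false]
    · simp only [hl, false_and, and_false, ind_false not_false]
  have e3 : ∑ m, ∑ l, ∑ a, ind (Ac S x c m ∧ Ac S x c l ∧ Ac S x c a ∧ C S (w + a) m ∧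
      C S m l) =
      ∑ m, ∑ l, ∑ a, ind (Ac S x c m ∧ Ac S x c l ∧ Ac S x c a ∧ C S a m ∧ C S m l) := by
    refine Finset.sum_congr rfl fun m _ => Finset.sum_congr rfl fun l _ => ?_
    by_cases hm : Ac S x c m
    · obtain ⟨a0, ha0, -, h2⟩ := X.star hw hm
      refine sum_shift _ _ a0 fun a => ?_
      have g1 : Ac S x c (a + a0) ↔ Ac S x c a := by
        rw [add_comm a a0]
        exact X.Aadd_iff ha0
      have g2 : C S (w + (a + a0)) m ↔ C S a m := by
        constructor
        · intro h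
          exact (h.add' h2.symm).of_eq (eo (by abel_nf <;> simp only [ch2, ch3, ch4, add_zero, zero_add])) rfl
        · intro h
          exact (h.add' h2.symm).of_eq (by abel) rfl
      rw [g1, g2]
    · simp only [hm, false_and, ind_false not_false]
  rw [e1, e2, e3]
  -- rename the variables
  have e4 : ∀ (f : V → V → V → ℤ), ∑ m, ∑ l, ∑ a, f m l a = ∑ m, ∑ l, ∑ a, f a l m := by
    intro f
    calc ∑ m, ∑ l, ∑ a, f m l a = ∑ l, ∑ m, ∑ a, f m l a := Finset.sum_comm
      _ = ∑ l, ∑ a, ∑ m, f m l a := Finset.sum_congr rfl fun l _ => Finset.sum_comm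
      _ = ∑ a, ∑ l, ∑ m, f m l a := Finset.sum_comm
  rw [e4]
  refine Finset.sum_congr rfl fun m _ => Finset.sum_congr rfl fun l _ =>
    Finset.sum_congr rfl fun a _ => ind_congr ?_
  constructor
  · rintro ⟨h1, h2, h3, h4, h5⟩
    exact ⟨h3, h2, h1, h4.symm, h5⟩
  · rintro ⟨h1, h2, h3, h4, h5⟩
    exact ⟨h3, h2, h1, h4.symm, h5⟩

end count

/-- every element of `X_c` acts on every pair of elements of `A` as an element of `A` -/
theorem act [Finite V] {w m l : V} (hw : S.q x w = c) (hm : Ac S x c m) (hl : Ac S x c l) :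
    ∃ n, Ac S x c n ∧ C S (w + n) m ∧ C S (w + n) l := by
  classical
  have := Fintype.ofFinite V
  have hle : ∀ m l, ∑ a, ind (Ac S x c m ∧ Ac S x c l ∧ Ac S x c a ∧ C S (w + a) m ∧
      C S (w + a) l) ≤ ∑ a, ind (Ac S x c m ∧ Ac S x c l ∧ Ac S x c a ∧ C S a m ∧ C S a l) := by
    intro m l
    by_cases h : ∃ a, Ac S x c m ∧ Ac S x c l ∧ Ac S x c a ∧ C S (w + a) m ∧ C S (w + a) l
    · obtain ⟨a0, h1, h2, h3, h4, h5⟩ := h
      refine le_of_eq (sum_shift _ _ a0 fun a => ?_)
      have g1 : Ac S x c (a + a0) ↔ Ac S x c a := by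
        rw [add_comm a a0]
        exact X.Aadd_iff h3
      have g2 : ∀ y, C S (w + a0) y → (C S (w + (a + a0)) y ↔ C S a y) := by
        intro y hy
        constructor
        · intro h
          exact (h.add' hy).of_eq (eo (by abel_nf <;> simp only [ch2, ch3, ch4, add_zero, zero_add])) rfl
        · intro h
          exact (h.add' hy).of_eq (by abel) rfl
      rw [g1, g2 _ h4, g2 _ h5]
    · push Not at h
      rw [Finset.sum_eq_zero]
      · exact Finset.sum_nonneg fun a _ => ind_nonneg _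
      · intro a _
        exact ind_false fun hh => h a hh.1 hh.2.1 hh.2.2.1 hh.2.2.2.1 hh.2.2.2.2
  have heq := X.count_eq hw
  have h1 := (Finset.sum_eq_sum_iff_of_le
    (fun m _ => Finset.sum_le_sum fun l _ => hle m l)).1 heq m (Finset.mem_univ _)
  have h2 := (Finset.sum_eq_sum_iff_of_le (fun l _ => hle m l)).1 h1 l (Finset.mem_univ _)
  by_contra hne
  push Not at hne
  have h3 : ∑ a, ind (Ac S x c m ∧ Ac S x c l ∧ Ac S x c a ∧ C S (w + a) m ∧
      C S (w + a) l) = 0 := by
    refine Finset.sum_eq_zero fun a _ => ind_false fun hh => hne a hh.2.2.1 hh.2.2.2.1 hh.2.2.2.2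
  have h4 : (0 : ℤ) < ∑ a, ind (Ac S x c m ∧ Ac S x c l ∧ Ac S x c a ∧ C S a m ∧ C S a l) := by
    refine Finset.sum_pos' (fun a _ => ind_nonneg _) ⟨0, Finset.mem_univ _, ?_⟩
    rw [ind_true ⟨hm, hl, X.A0, C.zero' m, C.zero' l⟩]
    exact one_pos
  rw [← h2, h3] at h4
  exact lt_irrefl _ h4

theorem actK [Finite V] {k m l : V} (hk : C S x k) (hm : Ac S x c m) (hl : Ac S x c l) :
    ∃ n, Ac S x c n ∧ C S (k + n) m ∧ C S (k + n) l := by
  obtain ⟨w, hw⟩ := X.hw
  obtain ⟨n, h1, h2, h3⟩ := X.act hw hm hl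
  obtain ⟨n', h1', h2', h3'⟩ := X.act (X.shift hw hk) hm hl
  refine ⟨n + n', X.Aadd h1 h1', ?_, ?_⟩
  · exact (h2.add' h2').of_eq (eo (by abel_nf <;> simp only [ch2, ch3, ch4, add_zero, zero_add])) rfl
  · exact (h3.add' h3').of_eq (eo (by abel_nf <;> simp only [ch2, ch3, ch4, add_zero, zero_add])) rfl

/-- `A` is linked -/
theorem linked [Finite V] {l m l' m' : V} (hl : Ac S x c l) (hm : Ac S x c m) (hl' : Ac S x c l')
    (hm' : Ac S x c m') (h : S.q l m = S.q l' m') :
    ∃ n, Ac S x c n ∧ C S l (m + n) ∧ C S l' (m' + n) ∧ C S (l + l') n := by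
  by_cases hz : C S l m
  · refine ⟨0, X.A0, ?_, ?_, C.zero _⟩
    · rw [add_zero]; exact hz
    · rw [add_zero]
      unfold C at hz ⊢
      rw [← h, hz]
  · have hl0 : l ≠ 0 := by
      rintro rfl
      exact hz (C.zero' m)
    have hl0' : l' ≠ 0 := by
      rintro rfl
      apply hz
      unfold C
      rw [h]
      exact C.zero' m'
    have e1 : S.q (x + l) m = S.q l m :=
      q_eq' (hm.1.of_eq (eo (by abel_nf <;> simp only [ch2, ch3, ch4, add_zero, zero_add])) rfl)
    have e2 : S.q (x + l') m' = S.q l' m' :=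
      q_eq' (hm'.1.of_eq (eo (by abel_nf <;> simp only [ch2, ch3, ch4, add_zero, zero_add])) rfl)
    obtain ⟨u, h1, h2, h3⟩ := link (S := S) (show S.q (x + l) m = S.q (x + l') m' by
      rw [e1, e2, h])
    have g1 : C S x (m + u) := X.d2 l hl hl0 _ h1
    have g2 : C S x (m' + u) := X.d2 l' hl' hl0' _ h2
    have hxu : C S x u := (hm.1.add g1).of_eq rfl (Pool.Agent.Helper58.PLine.add_add_self _ _)
    have k1 : C S l (m + u) := (g1.add' h1).of_eq (Pool.Agent.Helper58.PLine.add_add_self _ _) rfl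
    have k2 : C S l' (m' + u) := (g2.add' h2).of_eq (Pool.Agent.Helper58.PLine.add_add_self _ _) rfl
    have k3 : C S (l + l') u :=
      h3.of_eq (eo (by abel_nf <;> simp only [ch2, ch3, ch4, add_zero, zero_add])) rfl
    obtain ⟨n, hn, p1, p2⟩ := X.actK hxu hl hl'
    refine ⟨n, hn, ?_, ?_, ?_⟩
    · exact (k1.add p1.symm).of_eq rfl (eo (by abel_nf <;> simp only [ch2, ch3, ch4, add_zero, zero_add]))
    · exact (k2.add p2.symm).of_eq rfl (eo (by abel_nf <;> simp only [ch2, ch3, ch4, add_zero, zero_add]))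
    · exact (k3.add (p1.symm.add' p2.symm)).of_eq rfl
        (eo (by abel_nf <;> simp only [ch2, ch3, ch4, add_zero, zero_add]))

omit X in
/-- `A` as a subspace -/
def sub (X : LD S x c) : Submodule (ZMod 2) V where
  carrier := {l | Ac S x c l}
  add_mem' := fun h1 h2 => X.Aadd h1 h2
  zero_mem' := X.A0
  smul_mem' := by
    intro a l hl
    rcases Pool.Agent.Helper58.PLine.zm a with rfl | rfl
    · rw [zero_smul]; exact X.A0
    · rw [one_smul]; exact hl

omit X in
theorem mem_sub (X : LD S x c) {l : V} : l ∈ X.sub ↔ Ac S x c l := Iff.rfl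

omit X in
/-- the structure on `A` -/
def res [Finite V] (X : LD S x c) : QData X.sub Q where
  q := fun a b => S.q a b
  z := S.z
  e := 0
  symm := fun a b => S.symm _ _
  add := fun a b w => S.add _ _ _
  diag := fun a => by
    rw [add_zero]
    exact C.self X.he (a : V)
  link := by
    rintro ⟨a, ha⟩ ⟨b, hb⟩ ⟨a', ha'⟩ ⟨b', hb'⟩ h
    obtain ⟨n, h1, h2, h3, -⟩ := X.linked ha hb ha' hb' h
    exact ⟨⟨n, h1⟩, q_eq h2, q_eq h3⟩

/-- Theorem (I) on `A` -/
theorem inner [Finite V] {k : V}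
    (hk : ∀ m l, Ac S x c m → Ac S x c l → ∃ n, Ac S x c n ∧ C S (k + n) m ∧ C S (k + n) l) :
    ∃ p, Ac S x c p ∧ ∀ m, Ac S x c m → C S m (k + p) := by
  have hα : ETC.Pairwise2 X.res (fun m : X.sub => S.q (m : V) k) := by
    rintro ⟨m, hm⟩ ⟨l, hl⟩
    obtain ⟨n, hn, h1, h2⟩ := hk m l hm hl
    exact ⟨⟨n, hn⟩, q_eq h1.symm, q_eq h2.symm, q_eq (h1.symm.add' h2.symm)⟩
  obtain ⟨⟨p, hp⟩, h⟩ := ETC.saturation hα
  exact ⟨p, hp, fun m hm => q_eq_iff.1 (h ⟨m, hm⟩)⟩

/-- some element of `X_c` kills `A` -/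
theorem exists_wc [Finite V] : ∃ w, S.q x w = c ∧ ∀ m, Ac S x c m → C S m w := by
  obtain ⟨w, hw⟩ := X.hw
  obtain ⟨p, hp, h⟩ := X.inner (k := w) fun m l hm hl => X.act hw hm hl
  exact ⟨w + p, X.shift hw hp.1, h⟩

/-- `V_x = A + C(A)` -/
theorem split [Finite V] {k : V} (hk : C S x k) :
    ∃ p, Ac S x c p ∧ ∀ m, Ac S x c m → C S m (k + p) :=
  X.inner fun _ _ hm hl => X.actK hk hm hl

/-- (e) of the note -/
theorem lkE [Finite V] {m m' n n' : V} (hm : C S x m) (hm' : C S x m') (hn : Ac S x c n)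
    (hn' : Ac S x c n') (h : S.q m m' = S.q n n')
    (hc : (∀ v, C S m v → C S x v) ∨ ∀ v, C S (m + x) v → C S x v) :
    ∃ k, Ac S x c k ∧ C S m (m' + k) ∧ C S n (n' + k) := by
  obtain ⟨w, hw, hA⟩ := X.exists_wc
  have hstar : ∃ ms, S.q ms m' = S.q n n' ∧ C S (ms + m) m' ∧ (∀ v, C S ms v → C S x v) ∧
      (ms = m ∨ ms = m + x) := by
    rcases hc with hc | hc
    · exact ⟨m, h, by rw [ZModModule.add_self]; exact C.zero' _, hc, Or.inl rfl⟩
    · refine ⟨m + x, ?_, ?_, hc, Or.inr rfl⟩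
      · rw [← h]
        exact q_eq' (hm'.of_eq (eo (by abel_nf <;> simp only [ch2, ch3, ch4, add_zero, zero_add])) rfl)
      · exact hm'.of_eq (eo (by abel_nf <;> simp only [ch2, ch3, ch4, add_zero, zero_add])) rfl
  obtain ⟨ms, h1, h2, h3, h4⟩ := hstar
  have e2 : S.q (w + n) n' = S.q n n' :=
    q_eq' ((hA n' hn').symm.of_eq (eo (by abel_nf <;> simp only [ch2, ch3, ch4, add_zero, zero_add])) rfl)
  obtain ⟨k, g1, g2, g3⟩ := link (S := S) (show S.q ms m' = S.q (w + n) n' by rw [h1, e2])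
  have hxk : C S x k :=
    (hm'.add (h3 _ g1)).of_eq rfl (Pool.Agent.Helper58.PLine.add_add_self _ _)
  have hmk : C S m (m' + k) := by
    rcases h4 with rfl | rfl
    · exact g1
    · exact (g1.add' (hm'.add hxk)).of_eq (Pool.Agent.Helper58.PLine.add_self_add _ _) rfl
  have g4 : C S (m + (w + n)) k := by
    rcases h4 with rfl | rfl
    · exact g3
    · exact (g3.add' hxk).of_eq (eo (by abel_nf <;> simp only [ch2, ch3, ch4, add_zero, zero_add])) rfl
  have hkA : Ac S x c k := by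
    refine ⟨hxk, m + (w + n), ?_, g4.symm⟩
    have : S.q x (w + (n + m)) = c := X.shift hw (hn.1.add hm)
    rw [← this]
    congr 1
    abel
  refine ⟨k, hkA, hmk, ?_⟩
  have g5 : C S w (n' + k) := (hA n' hn').symm.add (hA k hkA).symm
  exact (g2.add' g5).of_eq (eo (by abel_nf <;> simp only [ch2, ch3, ch4, add_zero, zero_add])) rfl

end LD

end Pool.Agent.ED2
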