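import Pool.Agent.ED2.LDc

/-!
Section 3 of the blueprint 2539 (note 2502, part 4.2): if `(4.1)` holds at `u` then the
commutant of the class of `u` modulo `V_x` is `V_x ∪ (u + V_x)`.
The facts of section 1 of the blueprint enter as hypotheses.
-/

set_option autoImplicit false
set_option linter.unusedSimpArgs false
set_option linter.unnecessarySeqFocus false
set_option linter.unusedSectionVars false

namespace Pool.Agent.ED2

open Pool.Agent.Helper58.PLine (QData)
open Pool.Agent.ETCP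

variable {V Q : Type} [AddCommGroup V] [Module (ZMod 2) V]

/-- the set `C (u, v)`: the elements of `A (u)` that commute with all of `A (v)` -/
def Cuv (S : QData V Q) (x u v l : V) : Prop :=
  Ac S x (S.q x u) l ∧ ∀ a, Ac S x (S.q x v) a → C S l a

/-- the set `Delta (u)`: the elements `v` such that some `u' ∈ u + K`, `v' ∈ v + K` commute -/
def Del (S : QData V Q) (x u v : V) : Prop :=
  ∃ u' v', S.q x u' = S.q x u ∧ S.q x v' = S.q x v ∧ C S u' v'

/-- `A (u) ∩ A (v) ⊆ A (u + v)` -/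
theorem Ac.inter {S : QData V Q} {x u v l : V} (h : Ac S x (S.q x u) l)
    (h' : Ac S x (S.q x v) l) : Ac S x (S.q x (u + v)) l := by
  obtain ⟨h1, w, h2, h3⟩ := h
  obtain ⟨-, w', h2', h3'⟩ := h'
  refine ⟨h1, w + w', ?_, h3.add h3'⟩
  rw [q_eq_iff] at h2 h2' ⊢
  exact (h2.add h2').of_eq rfl (by abel)

/-- the hypotheses: facts of section 1 of the blueprint and `(4.1)` at `u` -/
structure Sec3 (S : QData V Q) (x u : V) : Prop where
  he : S.e = 0
  hu : ¬ C S x u
  /-- `D2+` at `x` -/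
  d2 : ∀ k, C S x k → (∀ v, C S k v → C S x v) ∨ ∀ v, C S (k + x) v → C S x v
  /-- `L0` -/
  L0 : ∀ v, ¬ C S x v → ∀ l, Ac S x (S.q x v) l →
    (∀ a, Ac S x (S.q x v) a → C S l a) → l = 0
  /-- `L3` for `A (u)` -/
  L3 : ∀ v, ¬ C S x v → ∀ l, Ac S x (S.q x u) l →
    ∃ l1 l2, l = l1 + l2 ∧ Ac S x (S.q x u) l1 ∧ Ac S x (S.q x v) l1 ∧ Cuv S x u v l2
  /-- `L4`: `C (u, v)` is good -/
  L4 : ∀ v v', ¬ C S x v → ¬ C S x v' → ∀ b, Cuv S x u v b →
    ∃ b1 b2, b = b1 + b2 ∧ Cuv S x u v b1 ∧ Ac S x (S.q x v') b1 ∧ Cuv S x u v b2 ∧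
      ∀ a, Ac S x (S.q x v') a → C S b2 a
  /-- `L5`: a generic element of `C (u, v)` -/
  L5 : ∀ v, ¬ C S x v → ∃ m, Cuv S x u v m ∧ ∀ t, ¬ C S x t →
    (∀ b, Cuv S x u v b → (∀ a, Ac S x (S.q x t) a → C S b a) → C S m b) →
    ∀ b, Cuv S x u v b → (∀ a, Ac S x (S.q x t) a → C S b a) → b = 0
  /-- `L6` -/
  L6 : ∀ v, ¬ C S x v → ∀ w s, S.q x w = S.q x u → S.q x s = S.q x v → C S w s →
    ∀ l, Cuv S x u v l → C S w l
  /-- `Delta (u)` is a subgroup -/
  Dadd : ∀ v v', Del S x u v → Del S x u v' → Del S x u (v + v')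
  /-- `(viii)` of `(4.1)` -/
  viii : ∀ v, Del S x u v → (∀ l, Ac S x (S.q x u) l → Ac S x (S.q x v) l) →
    C S x v ∨ C S x (u + v)

namespace Sec3

variable {S : QData V Q} {x u : V} (X : Sec3 S x u)

include X

/-- `C (u, v) ≠ 0` for `v` in `Delta (u)` outside of `K` and `u + K` -/
theorem exists_ne {v : V} (hv : Del S x u v) (h1 : ¬ C S x v) (h2 : ¬ C S x (u + v)) :
    ∃ b, Cuv S x u v b ∧ b ≠ 0 := by
  by_contra hne
  push Not at hne
  rcases X.viii v hv (fun l hl => by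
    obtain ⟨l1, l2, rfl, h3, h4, h5⟩ := X.L3 v h1 l hl
    rw [hne l2 h5, add_zero]
    exact h4) with h | h
  · exact h1 h
  · exact h2 h

/-- case `(A)` -/
theorem caseA {v v0 w m t : V} (hv : ¬ C S x v) (hw : S.q x w = S.q x u)
    (hv0 : S.q x v0 = S.q x v) (hwv : C S w v0) (hm : Cuv S x u v m)
    (h1 : S.q (v0 + x) t = S.q x w) (h2 : S.q (w + m) t = S.q x w) (ht : C S x (u + t)) :
    False := by
  have hwu : ¬ C S x w := by
    intro h
    apply X.hu
    unfold C at h ⊢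
    rw [← hw, h]
  have hvv : ¬ C S x v0 := by
    intro h
    apply hv
    unfold C at h ⊢
    rw [← hv0, h]
  have hxt : S.q x t = S.q x u := (q_eq ht).symm
  have hxx : C S x x := C.self X.he x
  have hvt : C S v0 t := by
    have h3 : C S ((v0 + x) + x) t := q_eq'_iff.1 (by rw [h1, hxt, hw])
    exact h3.of_eq (eo (by abel_nf <;> simp only [ch2, ch3, ch4, add_zero, zero_add])) rfl
  have htm : C S t m := X.L6 v hv t v0 hxt hv0 hvt.symm m hm
  have hxk : C S x (t + w) := q_eq_iff.1 (by rw [hxt, hw])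
  have hxkx : C S x (t + w + x) := hxk.add hxx
  have hvk : C S v0 (t + w) := hvt.add hwv.symm
  have h4 : S.q w t = S.q x w := by
    rw [← h2]
    exact q_eq' (htm.symm.of_eq (eo (by abel_nf <;> simp only [ch2, ch3, ch4, add_zero, zero_add])) rfl)
  have h5 : C S w (t + x) := q_eq_iff.1 (by rw [h4, S.symm])
  have h6 : C S (t + w + x) w :=
    ((h5.add (C.self X.he w)).of_eq rfl (by abel)).symm
  rcases X.d2 (t + w) hxk with h | h
  · exact hvv (h v0 hvk.symm)
  · exact hwu (h w h6)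

/-- case `(B)` -/
theorem caseB {v v0 w t : V} (huv : ¬ C S x (u + v))
    (hw : S.q x w = S.q x u)
    (hv0 : S.q x v0 = S.q x v)
    (h1 : S.q (v0 + x) t = S.q x w) (ht : C S x t) :
    False := by
  have hxx : C S x x := C.self X.he x
  have hwu : ¬ C S x w := by
    intro h
    apply X.hu
    unfold C at h ⊢
    rw [← hw, h]
  have hvw : ¬ C S x (v0 + w) := by
    intro h
    apply huv
    have : S.q x u = S.q x v := by rw [← hw, ← hv0]; exact (q_eq h).symm
    exact q_eq_iff.1 this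
  -- `l = t + x` lies in `A (u)`
  obtain ⟨w', g1, g2, g3⟩ := link (S := S) (show S.q x w = S.q t (v0 + x) by rw [← h1, S.symm])
  have hw' : ¬ C S x w' := by
    intro h
    exact hwu ((g1.add h).of_eq rfl (by rw [add_assoc, ZModModule.add_self, add_zero]))
  -- `q (v0, t) = q (x, w)`
  have e1 : S.q v0 t = S.q x w := by
    rw [← h1]
    exact q_eq' (ht.of_eq (eo (by abel_nf <;> simp only [ch2, ch3, ch4, add_zero, zero_add])) rfl)
  obtain ⟨y, k1, k2, k3⟩ := link (S := S) e1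
  have e2 : S.q v0 (t + x) = S.q x (v0 + w) := by
    have a1 : S.q v0 (t + x) = S.q v0 (v0 + x + y) :=
      q_eq ((k1.add (C.self X.he v0)).of_eq rfl (eo (by abel_nf <;> simp only [ch2, ch3, ch4, add_zero, zero_add])))
    have a2 : S.q x (v0 + w) = S.q x (v0 + x + y) :=
      q_eq ((k2.add hxx).of_eq rfl (eo (by abel_nf <;> simp only [ch2, ch3, ch4, add_zero, zero_add])))
    have a3 : S.q v0 (v0 + x + y) = S.q x (v0 + x + y) :=
      q_eq' ((C.self X.he (v0 + x)).add k3)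
    rw [a1, a3, a2]
  obtain ⟨u1, p1, p2, p3⟩ := link (S := S) (show S.q x (v0 + w) = S.q (t + x) v0 by
    rw [← e2, S.symm])
  have hu1 : ¬ C S x u1 := by
    intro h
    exact hvw ((p1.add h).of_eq rfl (by rw [add_assoc, ZModModule.add_self, add_zero]))
  rcases X.d2 (t + x) (ht.add hxx) with h | h
  · exact hw' (h w' (g3.of_eq (add_comm _ _) rfl))
  · exact hu1 (h u1 (p3.of_eq (add_comm _ _) rfl))

/-- the end of case `(C)`: two disjoint sets `C (u, v)`, `C (u, t)` lie in `C (u, v + t)` -/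
theorem sub_C {v t : V} (hv : ¬ C S x v) (hvt : ¬ C S x (v + t))
    (h : ∀ b, Cuv S x u v b → Ac S x (S.q x t) b) {l : V} (hl : Cuv S x u v l) :
    Cuv S x u (v + t) l := by
  obtain ⟨l1, l2, rfl, h1, h2, h3, h4⟩ := X.L4 v (v + t) hv hvt l hl
  have h5 : Ac S x (S.q x v) l1 := by
    have h6 := h2.inter (h l1 h1)
    rwa [add_assoc, ZModModule.add_self, add_zero] at h6
  have h7 : l1 = 0 := X.L0 v hv l1 h5 h1.2
  subst h7
  rw [zero_add]
  exact ⟨h3.1, h4⟩

/-- Section 3 of the blueprint -/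
theorem main [Finite V] : ∀ v, Del S x u v → C S x v ∨ C S x (u + v) := by
  classical
  by_contra hcon
  push Not at hcon
  obtain ⟨v, ⟨hd, hv, huv⟩, hmax⟩ := Set.exists_max_image
    {v | Del S x u v ∧ ¬ C S x v ∧ ¬ C S x (u + v)} (fun v => Set.ncard {b | Cuv S x u v b})
    (Set.toFinite _) hcon
  obtain ⟨w, v0, hw, hv0, hwv⟩ := hd
  have hwK := X.L6 v hv w v0 hw hv0 hwv
  obtain ⟨m, hm, hgen⟩ := X.L5 v hv
  obtain ⟨b0, hb0, hb0'⟩ := X.exists_ne ⟨w, v0, hw, hv0, hwv⟩ hv huv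
  have hxx : C S x x := C.self X.he x
  have hwm : S.q x (w + m) = S.q x w :=
    q_eq (hm.1.1.of_eq rfl (eo (by abel_nf <;> simp only [ch2, ch3, ch4, add_zero, zero_add])))
  have e0 : S.q (v0 + x) w = S.q x w :=
    q_eq' (hwv.symm.of_eq (eo (by abel_nf <;> simp only [ch2, ch3, ch4, add_zero, zero_add])) rfl)
  obtain ⟨t, t1, t2, t3⟩ := link (S := S) (show S.q (v0 + x) w = S.q (w + m) x by
    rw [e0, S.symm (w + m), hwm])
  have f1 : S.q (v0 + x) t = S.q x w := by rw [← q_eq t1, e0]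
  have f2 : S.q (w + m) t = S.q x w := by rw [← q_eq t2, S.symm (w + m), hwm]
  by_cases hA : C S x (u + t)
  · exact X.caseA hv hw hv0 hwv hm f1 f2 hA
  by_cases hB : C S x t
  · exact X.caseB huv hw hv0 f1 hB
  -- case (C)
  have hxt : S.q x (x + t) = S.q x t :=
    q_eq (hxx.of_eq rfl (eo (by abel_nf <;> simp only [ch2, ch3, ch4, add_zero, zero_add])))
  have hdt : Del S x u t := ⟨w + m, x + t, by rw [hwm, hw], hxt, t2⟩
  have hk := X.L6 t hB (w + m) (x + t) (by rw [hwm, hw]) hxt t2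
  have hz : ∀ b, Cuv S x u v b → (∀ a, Ac S x (S.q x t) a → C S b a) → b = 0 := by
    refine hgen t hB fun b hb hbt => ?_
    have h1 := hk b ⟨hb.1, hbt⟩
    have h2 := hwK b hb
    exact (h1.add' h2).of_eq (eo (by abel_nf <;> simp only [ch2, ch3, ch4, add_zero, zero_add])) rfl
  have hCt : ∀ b, Cuv S x u v b → Ac S x (S.q x t) b := by
    intro b hb
    obtain ⟨b1, b2, rfl, h1, h2, h3, h4⟩ := X.L4 v t hv hB b hb
    rw [hz b2 h3 h4, add_zero]
    exact h2
  have hC2 : ∀ b, Cuv S x u t b → Ac S x (S.q x v) b := by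
    intro b hb
    obtain ⟨b1, b2, rfl, h1, h2, h3, h4⟩ := X.L4 t v hB hv b hb
    rw [hz b2 ⟨h3.1, h4⟩ h3.2, add_zero]
    exact h2
  obtain ⟨b2, hb2, hb2'⟩ := X.exists_ne hdt hB hA
  have hvt : ¬ C S x (v + t) := by
    intro h
    have h1 : S.q x v = S.q x t := q_eq h
    apply hb0'
    refine hz b0 hb0 ?_
    rw [← h1]
    exact hb0.2
  have hs1 : ∀ b, Cuv S x u v b → Cuv S x u (v + t) b := fun b hb => X.sub_C hv hvt hCt hb
  have hs2 : ∀ b, Cuv S x u t b → Cuv S x u (v + t) b := fun b hb => by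
    have h1 : ¬ C S x (t + v) := by rwa [add_comm]
    have := X.sub_C hB h1 hC2 hb
    rwa [add_comm t v] at this
  have hdvt : Del S x u (v + t) := X.Dadd v t ⟨w, v0, hw, hv0, hwv⟩ hdt
  have huvt : ¬ C S x (u + (v + t)) := by
    intro h
    have h1 : S.q x u = S.q x (v + t) := q_eq h
    obtain ⟨h2, h3⟩ := hs1 b0 hb0
    rw [← h1] at h3
    exact hb0' (X.L0 u X.hu b0 h2 h3)
  have hle := hmax (v + t) ⟨hdvt, hvt, huvt⟩
  have hlt : Set.ncard {b | Cuv S x u v b} < Set.ncard {b | Cuv S x u (v + t) b} := by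
    refine Set.ncard_lt_ncard ?_ (Set.toFinite _)
    refine ⟨fun b hb => hs1 b hb, fun h => ?_⟩
    have h1 : Cuv S x u v b2 := h (hs2 b2 hb2)
    exact hb2' (hz b2 h1 hb2.2)
  exact absurd hle (not_le.2 hlt)

end Sec3

end Pool.Agent.ED2
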